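import Pool.Agent.helper90.IV.Spec

/-!
# MP_26dbae_co, row FIB: few homomorphisms lie in small fibres of the base map
-/

set_option autoImplicit false

open scoped BigOperators

namespace Pool.Agent.helper55.IV

open Pool.Agent.IV Pool.Agent.helper23.TH Pool.Agent.KS

open Classical

/-- elements of `G` in small fibres: at most `C` times the number of values -/
theorem small_fibres {α β : Type} [DecidableEq β] (G : Finset α) (f : α → β) (C : ℕ) :
    (G.filter fun a => ¬ C < (G.filter fun a' => f a' = f a).card).card ≤ C * (G.image f).card := by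
  have h1 : (G.filter fun a => ¬ C < (G.filter fun a' => f a' = f a).card).card ≤
      C * ((G.filter fun a => ¬ C < (G.filter fun a' => f a' = f a).card).image f).card := by
    apply Finset.card_le_mul_card_image
    intro b hb
    obtain ⟨a, ha, rfl⟩ := Finset.mem_image.1 hb
    have ha' := (Finset.mem_filter.1 ha).2
    refine le_trans (Finset.card_le_card ?_) (not_lt.1 ha')
    intro a' h'
    rw [Finset.mem_filter] at h' ⊢
    exact ⟨(Finset.mem_filter.1 h'.1).1, h'.2⟩
  refine le_trans h1 (Nat.mul_le_mul_left _ (Finset.card_le_card ?_))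
  exact Finset.image_subset_image (Finset.filter_subset _ _)

theorem FIB (hBN : BN_stmt) : FIB_stmt := by
  intro I _ T s C κ η hκ hη
  refine ⟨max 1 (2 * (C * κ ^ (Fintype.card I + Fintype.card T.R)) / η), ?_⟩
  intro V K _ A lam Ch d KE ε K₀ hE hK gh W hGI hW G hG hGc
  have hd : 0 < d := lt_of_lt_of_le one_pos hE.d1
  have hK0 : 0 < K₀ := lt_of_lt_of_le one_pos (le_trans (le_max_left _ _) hK)
  have hK1 : 2 * (C * κ ^ (Fintype.card I + Fintype.card T.R)) / η ≤ K₀ := le_trans (le_max_right _ _) hK
  have hU : (Wᶜ).Nonempty := by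
    rw [Finset.nonempty_iff_ne_empty]
    intro h
    exact hW (Finset.compl_eq_empty_iff W |>.1 h)
  have h1 := hE.h1 Wᶜ hU
  have hbn := hBN I T s V A d κ gh W hE.pr.symm hd hκ hE.pos hE.lo hE.hi hGI
  have hn : (0 : ℝ) < (Fintype.card V : ℝ) ^ T.ew Wᶜ := by
    have : (0 : ℝ) < Fintype.card V := by exact_mod_cast hE.pos
    positivity
  have hb : (((Hm T A gh).image (bs W)).card : ℝ) * K₀ ≤
      κ ^ (Fintype.card I + Fintype.card T.R) * (Hm T A gh).card := by
    have hb1 : (((Hm T A gh).image (bs W)).card : ℝ) * (K₀ * (Fintype.card V : ℝ) ^ T.ew Wᶜ) ≤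
        (((Hm T A gh).image (bs W)).card : ℝ) * ((Fintype.card V : ℝ) ^ (Wᶜ).card * d ^ T.ew Wᶜ) :=
      mul_le_mul_of_nonneg_left h1 (Nat.cast_nonneg _)
    have hb2 := le_trans hb1 hbn
    refine le_of_mul_le_mul_right ?_ hn
    calc (((Hm T A gh).image (bs W)).card : ℝ) * K₀ * (Fintype.card V : ℝ) ^ T.ew Wᶜ
        = (((Hm T A gh).image (bs W)).card : ℝ) * (K₀ * (Fintype.card V : ℝ) ^ T.ew Wᶜ) := by ring
      _ ≤ κ ^ (Fintype.card I + Fintype.card T.R) * (Fintype.card V : ℝ) ^ T.ew Wᶜ * (Hm T A gh).card := hb2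
      _ = κ ^ (Fintype.card I + Fintype.card T.R) * (Hm T A gh).card * (Fintype.card V : ℝ) ^ T.ew Wᶜ := by ring
  have hsm := small_fibres G (bs W) C
  have hsm2 : C * (G.image (bs W)).card ≤ C * ((Hm T A gh).image (bs W)).card :=
    Nat.mul_le_mul_left _ (Finset.card_le_card (Finset.image_subset_image hG))
  have hsm3 : ((G.filter fun a => ¬ C < (G.filter fun a' => bs W a' = bs W a).card).card : ℝ) ≤
      C * ((Hm T A gh).image (bs W)).card := by exact_mod_cast le_trans hsm hsm2
  have hC : (C : ℝ) * ((Hm T A gh).image (bs W)).card ≤ η / 2 * (Hm T A gh).card := by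
    refine le_of_mul_le_mul_right ?_ hK0
    have e1 : (C : ℝ) * κ ^ (Fintype.card I + Fintype.card T.R) ≤ η / 2 * K₀ := by
      rw [div_le_iff₀ hη] at hK1
      linarith
    calc (C : ℝ) * ((Hm T A gh).image (bs W)).card * K₀
        = C * ((((Hm T A gh).image (bs W)).card : ℝ) * K₀) := by ring
      _ ≤ C * (κ ^ (Fintype.card I + Fintype.card T.R) * (Hm T A gh).card) :=
          mul_le_mul_of_nonneg_left hb (Nat.cast_nonneg _)
      _ = C * κ ^ (Fintype.card I + Fintype.card T.R) * (Hm T A gh).card := by ring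
      _ ≤ η / 2 * K₀ * (Hm T A gh).card := mul_le_mul_of_nonneg_right e1 (Nat.cast_nonneg _)
      _ = η / 2 * (Hm T A gh).card * K₀ := by ring
  have hsplit : ((G.filter fun a => C < (G.filter fun a' => bs W a' = bs W a).card).card : ℝ) +
      ((G.filter fun a => ¬ C < (G.filter fun a' => bs W a' = bs W a).card).card : ℝ) = G.card := by
    exact_mod_cast Finset.card_filter_add_card_filter_not (s := G)
      (fun a => C < (G.filter fun a' => bs W a' = bs W a).card)
  linarith

end Pool.Agent.helper55.IV
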